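import Pool.Agent.H10.Jam4

set_option autoImplicit false

namespace Pool.Agent.Results.MP_585e0c_gt.Superpoly
open Pool.Agent.H10.BW Filter

/-- Jammed kissing configurations of superpolynomial size in dimensions `2^k`. -/
theorem result : ∃ C : (k : ℕ) → Finset (EuclideanSpace ℝ (Fin (2 ^ k))),
    (∀ k, 2 ≤ k → (∀ x ∈ C k, ‖x‖ = 1) ∧
      (∀ x ∈ C k, ∀ y ∈ C k, x ≠ y → inner ℝ x y ≤ 1 / 2) ∧
      Rigid (C k : Set (EuclideanSpace ℝ (Fin (2 ^ k)))) (1 / 2) ∧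
      2 ^ (k * (k + 1) / 2) ≤ (C k).card) ∧
    ∀ a : ℕ, Tendsto (fun k : ℕ => ((C k).card : ℝ) / ((2 ^ k : ℕ) : ℝ) ^ a) atTop atTop := by
  have h : ∀ k : ℕ, ∃ C : Finset (EuclideanSpace ℝ (Fin (2 ^ k))), 2 ≤ k → (∀ x ∈ C, ‖x‖ = 1) ∧
      (∀ x ∈ C, ∀ y ∈ C, x ≠ y → inner ℝ x y ≤ 1 / 2) ∧
      Rigid (C : Set (EuclideanSpace ℝ (Fin (2 ^ k)))) (1 / 2) ∧
      2 ^ (k * (k + 1) / 2) ≤ C.card := by
    intro k
    by_cases hk : 2 ≤ k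
    · obtain ⟨n, rfl⟩ := Nat.exists_eq_add_of_le' hk
      obtain ⟨C, hC⟩ := big n
      exact ⟨C, fun _ => hC⟩
    · exact ⟨∅, fun h => absurd h hk⟩
  choose C hC using h
  exact ⟨C, hC, grow _ fun k hk => (hC k hk).2.2.2⟩

end Pool.Agent.Results.MP_585e0c_gt.Superpoly
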